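import Mathlib

set_option autoImplicit false

/-!
# Extremal (2,3)-graphs of girth 4 and 6 with adjacent vertices of degree 2
-/

namespace Pool.Agent.Results.MP_6c91b3_co.AdjacentDegreeTwo

open Finset SimpleGraph

/-- The degree of a vertex. -/
noncomputable def deg {V : Type} (G : SimpleGraph V) (v : V) : ℕ := (G.neighborSet v).ncard

/-- The class of graphs in which exactly half of the vertices have degree `2` and the other half
have degree `3`. -/
def D23 {V : Type} (G : SimpleGraph V) : Prop :=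
  (∀ v, deg G v = 2 ∨ deg G v = 3) ∧ {v | deg G v = 2}.ncard = {v | deg G v = 3}.ncard

/-- `G` is extremal for `g`: it lies in the class, has girth `g`, and has the smallest number of
vertices among all such graphs. -/
def Extremal {V : Type} [Fintype V] (g : ℕ) (G : SimpleGraph V) : Prop :=
  D23 G ∧ G.girth = g ∧
    ∀ (W : Type) [Fintype W] (H : SimpleGraph W), D23 H → H.girth = g →
      Fintype.card V ≤ Fintype.card W

/-! ### Short cycles -/

theorem girth_le_of_contained {V : Type} (G : SimpleGraph V) (m : ℕ) (hm : 3 ≤ m)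
    (h : cycleGraph m ⊑ G) : G.girth ≤ m := by
  obtain ⟨a, w, hw, hlen⟩ := (cycleGraph_isContained_iff (by omega)).mp h
  have := girth_le_length hw
  omega

theorem cyc3 {V : Type} (G : SimpleGraph V) {a b c : V} (h1 : G.Adj a b) (h2 : G.Adj b c)
    (h3 : G.Adj c a) : G.girth ≤ 3 := by
  apply girth_le_of_contained G 3 le_rfl
  refine ⟨⟨⟨![a, b, c], ?_⟩, ?_⟩⟩
  · intro i j hij
    fin_cases i <;> fin_cases j <;>
      first
        | exact absurd hij (by decide)
        | simpa using h1
        | simpa using h1.symm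
        | simpa using h2
        | simpa using h2.symm
        | simpa using h3
        | simpa using h3.symm
  · have e1 := h1.ne
    have e2 := h2.ne
    have e3 := h3.ne
    intro i j hij
    fin_cases i <;> fin_cases j <;> first | rfl | (exfalso; simp_all)

theorem cyc4 {V : Type} (G : SimpleGraph V) {a b c d : V} (h1 : G.Adj a b) (h2 : G.Adj b c)
    (h3 : G.Adj c d) (h4 : G.Adj d a) (hac : a ≠ c) (hbd : b ≠ d) : G.girth ≤ 4 := by
  apply girth_le_of_contained G 4 (by norm_num)
  refine ⟨⟨⟨![a, b, c, d], ?_⟩, ?_⟩⟩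
  · intro i j hij
    fin_cases i <;> fin_cases j <;>
      first
        | exact absurd hij (by decide)
        | simpa using h1
        | simpa using h1.symm
        | simpa using h2
        | simpa using h2.symm
        | simpa using h3
        | simpa using h3.symm
        | simpa using h4
        | simpa using h4.symm
  · have e1 := h1.ne
    have e2 := h2.ne
    have e3 := h3.ne
    have e4 := h4.ne
    intro i j hij
    fin_cases i <;> fin_cases j <;> first | rfl | (exfalso; simp_all)

theorem cyc5 {V : Type} (G : SimpleGraph V) {a b c d e : V} (h1 : G.Adj a b) (h2 : G.Adj b c)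
    (h3 : G.Adj c d) (h4 : G.Adj d e) (h5 : G.Adj e a) (hac : a ≠ c) (had : a ≠ d) (hbd : b ≠ d)
    (hbe : b ≠ e) (hce : c ≠ e) : G.girth ≤ 5 := by
  apply girth_le_of_contained G 5 (by norm_num)
  refine ⟨⟨⟨![a, b, c, d, e], ?_⟩, ?_⟩⟩
  · intro i j hij
    fin_cases i <;> fin_cases j <;>
      first
        | exact absurd hij (by decide)
        | simpa using h1
        | simpa using h1.symm
        | simpa using h2
        | simpa using h2.symm
        | simpa using h3
        | simpa using h3.symm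
        | simpa using h4
        | simpa using h4.symm
        | simpa using h5
        | simpa using h5.symm
  · have e1 := h1.ne
    have e2 := h2.ne
    have e3 := h3.ne
    have e4 := h4.ne
    have e5 := h5.ne
    intro i j hij
    fin_cases i <;> fin_cases j <;> first | rfl | (exfalso; simp_all)

/-! ### Lower bounds for the order -/

open Classical in
theorem deg_eq {V : Type} [Fintype V] (G : SimpleGraph V) (v : V) :
    deg G v = (G.neighborFinset v).card := by
  unfold deg
  rw [← Set.ncard_coe_finset, coe_neighborFinset]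

open Classical in
theorem half {V : Type} [Fintype V] (G : SimpleGraph V) (h : D23 G) :
    (univ.filter (fun v => deg G v = 2)).card = (univ.filter (fun v => deg G v = 3)).card ∧
    Fintype.card V = 2 * (univ.filter (fun v => deg G v = 3)).card ∧
    ∃ k, (univ.filter (fun v => deg G v = 3)).card = 2 * k := by
  obtain ⟨h1, h2⟩ := h
  have h3 : (univ.filter (fun v => deg G v = 2)).card =
      (univ.filter (fun v => deg G v = 3)).card := by
    rw [← Set.ncard_coe_finset, ← Set.ncard_coe_finset]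
    simpa using h2
  have h4 : univ.filter (fun v => ¬ deg G v = 3) = univ.filter (fun v => deg G v = 2) := by
    apply Finset.filter_congr
    intro v _
    rcases h1 v with h | h <;> omega
  have h5 := Finset.card_filter_add_card_filter_not (s := (univ : Finset V))
    (fun v => deg G v = 3)
  rw [h4, Finset.card_univ, h3] at h5
  refine ⟨h3, by omega, ?_⟩
  have h6 := G.sum_degrees_eq_twice_card_edges
  have h7 : ∑ v, G.degree v = ∑ v, (2 + if deg G v = 3 then 1 else 0) := by
    apply Finset.sum_congr rfl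
    intro v _
    have h8 : G.degree v = deg G v := by
      rw [deg_eq, card_neighborFinset_eq_degree]
    rw [h8]
    rcases h1 v with h | h
    · rw [if_neg (by omega), h]
    · rw [if_pos h, h]
  rw [h7, Finset.sum_add_distrib, Finset.sum_const, Finset.card_univ, Finset.sum_boole] at h6
  simp only [smul_eq_mul, Nat.cast_id] at h6
  refine ⟨G.edgeFinset.card - Fintype.card V, ?_⟩
  omega

open Classical in
theorem edge33 {V : Type} [Fintype V] [Nonempty V] (G : SimpleGraph V) (h : D23 G) :
    ∃ u v, G.Adj u v ∧ deg G u = 3 ∧ deg G v = 3 := by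
  by_contra hcon
  push Not at hcon
  obtain ⟨h1, h2, _⟩ := half G h
  set A := univ.filter (fun v => deg G v = 3) with hA
  set B := univ.filter (fun v => deg G v = 2) with hB
  have h3 : ∑ u ∈ A, (B.filter (fun v => G.Adj u v)).card =
      ∑ v ∈ B, (A.filter (fun u => G.Adj u v)).card := by
    simp only [Finset.card_filter]
    exact Finset.sum_comm
  have h4 : ∀ u ∈ A, (B.filter (fun v => G.Adj u v)).card = 3 := by
    intro u hu
    rw [hA, mem_filter] at hu
    have h5 : B.filter (fun v => G.Adj u v) = G.neighborFinset u := by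
      ext v
      rw [mem_filter, mem_neighborFinset, hB, mem_filter]
      constructor
      · exact fun h => h.2
      · intro hv
        refine ⟨⟨mem_univ _, ?_⟩, hv⟩
        rcases h.1 v with h6 | h6
        · exact h6
        · exact absurd h6 (hcon u v hv hu.2)
    rw [h5, ← deg_eq]
    exact hu.2
  have h5 : ∀ v ∈ B, (A.filter (fun u => G.Adj u v)).card ≤ 2 := by
    intro v hv
    rw [hB, mem_filter] at hv
    rw [← hv.2, deg_eq]
    apply Finset.card_le_card
    intro u hu
    rw [mem_filter] at hu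
    rw [mem_neighborFinset]
    exact hu.2.symm
  rw [Finset.sum_congr rfl h4, Finset.sum_const, smul_eq_mul] at h3
  have h6 := Finset.sum_le_card_nsmul B _ 2 h5
  rw [smul_eq_mul] at h6
  have h7 : 0 < Fintype.card V := Fintype.card_pos
  omega

open Classical in
/-- Girth four needs eight vertices. -/
theorem lower4 {V : Type} [Fintype V] (G : SimpleGraph V) (h : D23 G) (hg : G.girth = 4) :
    8 ≤ Fintype.card V := by
  have hne : Nonempty V := by
    by_contra hcon
    rw [not_nonempty_iff] at hcon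
    have : G.girth = 0 := girth_eq_zero.mpr (fun v => (hcon.false v).elim)
    omega
  obtain ⟨u, v, huv, hu, hv⟩ := edge33 G h
  obtain ⟨_, h2, k, hk⟩ := half G h
  have hdisj : Disjoint (G.neighborFinset u) (G.neighborFinset v) := by
    rw [Finset.disjoint_left]
    intro x hx hy
    rw [mem_neighborFinset] at hx hy
    have := cyc3 G hx hy.symm huv.symm
    omega
  have h3 := Finset.card_le_univ (G.neighborFinset u ∪ G.neighborFinset v)
  rw [Finset.card_union_of_disjoint hdisj, ← deg_eq, ← deg_eq, hu, hv] at h3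
  omega

open Classical in
/-- Girth six needs twelve vertices. -/
theorem lower6 {V : Type} [Fintype V] (G : SimpleGraph V) (h : D23 G) (hg : G.girth = 6) :
    12 ≤ Fintype.card V := by
  have hne : Nonempty V := by
    by_contra hcon
    rw [not_nonempty_iff] at hcon
    have : G.girth = 0 := girth_eq_zero.mpr (fun v => (hcon.false v).elim)
    omega
  obtain ⟨u, v, huv, hu, hv⟩ := edge33 G h
  obtain ⟨_, h2, k, hk⟩ := half G h
  have no3 : ∀ {a b c : V}, G.Adj a b → G.Adj b c → G.Adj c a → False := by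
    intro a b c h1 h2 h3
    have := cyc3 G h1 h2 h3
    omega
  have no4 : ∀ {a b c d : V}, G.Adj a b → G.Adj b c → G.Adj c d → G.Adj d a → a ≠ c → b ≠ d →
      False := by
    intro a b c d h1 h2 h3 h4 h5 h6
    have := cyc4 G h1 h2 h3 h4 h5 h6
    omega
  have no5 : ∀ {a b c d e : V}, G.Adj a b → G.Adj b c → G.Adj c d → G.Adj d e → G.Adj e a →
      a ≠ c → a ≠ d → b ≠ d → b ≠ e → c ≠ e → False := by
    intro a b c d e h1 h2 h3 h4 h5 h6 h7 h8 h9 h10
    have := cyc5 G h1 h2 h3 h4 h5 h6 h7 h8 h9 h10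
    omega
  have hdisj : Disjoint (G.neighborFinset u) (G.neighborFinset v) := by
    rw [Finset.disjoint_left]
    intro x hx hy
    rw [mem_neighborFinset] at hx hy
    exact no3 hx hy.symm huv.symm
  set T := G.neighborFinset u ∪ G.neighborFinset v with hT
  have hTcard : T.card = 6 := by
    rw [hT, Finset.card_union_of_disjoint hdisj, ← deg_eq, ← deg_eq, hu, hv]
  set S := (T.erase u).erase v with hS
  have huT : u ∈ T := by
    rw [hT, mem_union, mem_neighborFinset, mem_neighborFinset]
    exact Or.inr huv.symm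
  have hvT : v ∈ T := by
    rw [hT, mem_union, mem_neighborFinset, mem_neighborFinset]
    exact Or.inl huv
  have hScard : S.card = 4 := by
    rw [hS, Finset.card_erase_of_mem (mem_erase.mpr ⟨huv.ne.symm, hvT⟩),
      Finset.card_erase_of_mem huT, hTcard]
  -- a further neighbour
  have hex : ∀ x : V, ∃ w : V, x ∈ S → G.Adj x w ∧ w ≠ u ∧ w ≠ v := by
    intro x
    by_cases hx : x ∈ S
    · rw [hS, mem_erase, mem_erase, hT, mem_union, mem_neighborFinset, mem_neighborFinset] at hx
      obtain ⟨hxv, hxu, hx⟩ := hx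
      have hd : 2 ≤ (G.neighborFinset x).card := by
        rw [← deg_eq]
        rcases h.1 x with h6 | h6 <;> omega
      rcases hx with hx | hx
      · obtain ⟨w, hw, hwu⟩ := Finset.exists_mem_ne (by omega : 1 < (G.neighborFinset x).card) u
        rw [mem_neighborFinset] at hw
        refine ⟨w, fun _ => ⟨hw, hwu, ?_⟩⟩
        rintro rfl
        exact no3 hx hw huv.symm
      · obtain ⟨w, hw, hwv⟩ := Finset.exists_mem_ne (by omega : 1 < (G.neighborFinset x).card) v
        rw [mem_neighborFinset] at hw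
        refine ⟨w, fun _ => ⟨hw, ?_, hwv⟩⟩
        rintro rfl
        exact no3 hx hw huv
    · exact ⟨x, fun h => absurd h hx⟩
  choose φ hφ using hex
  have hSmem : ∀ x, x ∈ S → x ≠ u ∧ x ≠ v ∧ (G.Adj u x ∨ G.Adj v x) := by
    intro x hx
    rw [hS, mem_erase, mem_erase, hT, mem_union, mem_neighborFinset, mem_neighborFinset] at hx
    exact ⟨hx.2.1, hx.1, hx.2.2⟩
  have hφT : ∀ x ∈ S, φ x ∉ T := by
    intro x hx hxT
    obtain ⟨h3, h4, h5⟩ := hφ x hx
    obtain ⟨h6, h7, h8⟩ := hSmem x hx
    rw [hT, mem_union, mem_neighborFinset, mem_neighborFinset] at hxT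
    rcases h8 with h8 | h8
    · rcases hxT with h9 | h9
      · exact no3 h8 h3 h9.symm
      · exact no4 h8 h3 h9.symm huv.symm h4.symm h7
    · rcases hxT with h9 | h9
      · exact no4 h8 h3 h9.symm huv h5.symm h6
      · exact no3 h8 h3 h9.symm
  have hφinj : Set.InjOn φ S := by
    intro x hx y hy hxy
    by_contra hne
    obtain ⟨h3, h4, h5⟩ := hφ x hx
    obtain ⟨h3', _, _⟩ := hφ y hy
    rw [← hxy] at h3'
    obtain ⟨h6, h7, h8⟩ := hSmem x hx
    obtain ⟨h6', h7', h8'⟩ := hSmem y hy
    rcases h8 with h8 | h8 <;> rcases h8' with h8' | h8'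
    · exact no4 h8 h3 h3'.symm h8'.symm h4.symm hne
    · exact no5 h8 h3 h3'.symm h8'.symm huv.symm h4.symm h6'.symm hne h7 h5
    · exact no5 h8 h3 h3'.symm h8'.symm huv h5.symm h7'.symm hne h6 h4
    · exact no4 h8 h3 h3'.symm h8'.symm h5.symm hne
  have hdisj2 : Disjoint T (S.image φ) := by
    rw [Finset.disjoint_right]
    intro w hw
    rw [mem_image] at hw
    obtain ⟨x, hx, rfl⟩ := hw
    exact hφT x hx
  have h3 := Finset.card_le_univ (T ∪ S.image φ)
  rw [Finset.card_union_of_disjoint hdisj2, Finset.card_image_of_injOn hφinj, hTcard,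
    hScard] at h3
  omega

/-! ### The two graphs -/

/-- The graph given by a neighbour table. -/
def ofTable {n : ℕ} (nb : Fin n → Finset (Fin n)) (h1 : ∀ a b, b ∈ nb a → a ∈ nb b)
    (h2 : ∀ a, a ∉ nb a) : SimpleGraph (Fin n) where
  Adj a b := b ∈ nb a
  symm := ⟨fun a b h => h1 a b h⟩
  loopless := ⟨fun a h => h2 a h⟩

/-- Neighbour table of the first graph: `K₄` on `0, 1, 2, 3` with the edge `01` subdivided twice
and the edges `02`, `23` subdivided once. -/
def nb8 : Fin 8 → Finset (Fin 8) :=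
  ![{4, 7, 3}, {5, 2, 3}, {6, 7, 1}, {6, 1, 0}, {0, 5}, {4, 1}, {2, 3}, {0, 2}]

/-- Neighbour table of the second graph: `K₃,₃` on `0, 1, 2 | 3, 4, 5` with the edge `03`
subdivided twice and the edges `14, 15, 24, 25` subdivided once. -/
def nb12 : Fin 12 → Finset (Fin 12) :=
  ![{6, 4, 5}, {8, 9, 3}, {10, 11, 3}, {7, 1, 2}, {8, 10, 0}, {9, 11, 0}, {0, 7}, {6, 3}, {1, 4},
    {1, 5}, {2, 4}, {2, 5}]

/-- The graph on eight vertices. -/
def G8 : SimpleGraph (Fin 8) := ofTable nb8 (by decide) (by decide)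

/-- The graph on twelve vertices. -/
def G12 : SimpleGraph (Fin 12) := ofTable nb12 (by decide) (by decide)

theorem deg_ofTable {n : ℕ} (nb : Fin n → Finset (Fin n)) (h1 : ∀ a b, b ∈ nb a → a ∈ nb b)
    (h2 : ∀ a, a ∉ nb a) (v : Fin n) : deg (ofTable nb h1 h2) v = (nb v).card := by
  unfold deg
  rw [← Set.ncard_coe_finset]
  rfl

theorem D23_ofTable {n : ℕ} (nb : Fin n → Finset (Fin n)) (h1 : ∀ a b, b ∈ nb a → a ∈ nb b)
    (h2 : ∀ a, a ∉ nb a) (h3 : ∀ v, (nb v).card = 2 ∨ (nb v).card = 3)
    (h4 : (univ.filter (fun v => (nb v).card = 2)).card =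
      (univ.filter (fun v => (nb v).card = 3)).card) : D23 (ofTable nb h1 h2) := by
  refine ⟨fun v => by rw [deg_ofTable]; exact h3 v, ?_⟩
  simp only [deg_ofTable]
  rw [← Set.ncard_coe_finset, ← Set.ncard_coe_finset] at h4
  simpa using h4

theorem le_girth {V : Type} (G : SimpleGraph V) (hna : ¬ G.IsAcyclic) (g : ℕ)
    (h : ∀ m, 3 ≤ m → m < g → ¬ cycleGraph m ⊑ G) : g ≤ G.girth := by
  obtain ⟨a, w, hw, hlen⟩ := exists_girth_eq_length.mpr hna
  have h3 := three_le_girth hna
  by_contra hlt
  push Not at hlt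
  exact h G.girth h3 hlt ((cycleGraph_isContained_iff (by omega)).mpr ⟨a, w, hw, hlen.symm⟩)

theorem girth8 : G8.girth = 4 := by
  have h4 : cycleGraph 4 ⊑ G8 := by
    refine ⟨⟨⟨![1, 2, 6, 3], ?_⟩, ?_⟩⟩
    · intro i j
      change (cycleGraph 4).Adj i j → (![1, 2, 6, 3] : Fin 4 → Fin 8) j ∈ nb8 (![1, 2, 6, 3] i)
      revert i j
      decide
    · intro i j
      change (![1, 2, 6, 3] : Fin 4 → Fin 8) i = ![1, 2, 6, 3] j → i = j
      revert i j
      decide
  have hna : ¬ G8.IsAcyclic := by
    intro hac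
    obtain ⟨a, w, hw, _⟩ := (cycleGraph_isContained_iff (by norm_num)).mp h4
    exact hac w hw
  apply le_antisymm (girth_le_of_contained G8 4 (by norm_num) h4)
  apply le_girth G8 hna
  intro m hm1 hm2
  have hm : m = 3 := by omega
  subst hm
  rintro ⟨f⟩
  have h1 : G8.Adj (f 0) (f 1) := f.toHom.map_rel (by decide : (cycleGraph 3).Adj 0 1)
  have h2 : G8.Adj (f 1) (f 2) := f.toHom.map_rel (by decide : (cycleGraph 3).Adj 1 2)
  have h3 : G8.Adj (f 2) (f 0) := f.toHom.map_rel (by decide : (cycleGraph 3).Adj 2 0)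
  have key : ∀ a : Fin 8, ∀ b ∈ nb8 a, ∀ c ∈ nb8 b, ¬ a ∈ nb8 c := by decide
  exact key _ _ h1 _ h2 h3

theorem girth12 : G12.girth = 6 := by
  have h6 : cycleGraph 6 ⊑ G12 := by
    refine ⟨⟨⟨![0, 4, 8, 1, 9, 5], ?_⟩, ?_⟩⟩
    · intro i j
      change (cycleGraph 6).Adj i j →
        (![0, 4, 8, 1, 9, 5] : Fin 6 → Fin 12) j ∈ nb12 (![0, 4, 8, 1, 9, 5] i)
      revert i j
      decide
    · intro i j
      change (![0, 4, 8, 1, 9, 5] : Fin 6 → Fin 12) i = ![0, 4, 8, 1, 9, 5] j → i = j
      revert i j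
      decide
  have hna : ¬ G12.IsAcyclic := by
    intro hac
    obtain ⟨a, w, hw, _⟩ := (cycleGraph_isContained_iff (by norm_num)).mp h6
    exact hac w hw
  apply le_antisymm (girth_le_of_contained G12 6 (by norm_num) h6)
  apply le_girth G12 hna
  intro m hm1 hm2
  have hm : m = 3 ∨ m = 4 ∨ m = 5 := by omega
  rcases hm with rfl | rfl | rfl
  · rintro ⟨f⟩
    have h1 : G12.Adj (f 0) (f 1) := f.toHom.map_rel (by decide : (cycleGraph 3).Adj 0 1)
    have h2 : G12.Adj (f 1) (f 2) := f.toHom.map_rel (by decide : (cycleGraph 3).Adj 1 2)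
    have h3 : G12.Adj (f 2) (f 0) := f.toHom.map_rel (by decide : (cycleGraph 3).Adj 2 0)
    have key : ∀ a : Fin 12, ∀ b ∈ nb12 a, ∀ c ∈ nb12 b, ¬ a ∈ nb12 c := by decide
    exact key _ _ h1 _ h2 h3
  · rintro ⟨f⟩
    have h1 : G12.Adj (f 0) (f 1) := f.toHom.map_rel (by decide : (cycleGraph 4).Adj 0 1)
    have h2 : G12.Adj (f 1) (f 2) := f.toHom.map_rel (by decide : (cycleGraph 4).Adj 1 2)
    have h3 : G12.Adj (f 2) (f 3) := f.toHom.map_rel (by decide : (cycleGraph 4).Adj 2 3)
    have h4 : G12.Adj (f 3) (f 0) := f.toHom.map_rel (by decide : (cycleGraph 4).Adj 3 0)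
    have e1 : f 0 ≠ f 2 := fun h => absurd (f.injective h) (by decide)
    have e2 : f 1 ≠ f 3 := fun h => absurd (f.injective h) (by decide)
    have key : ∀ a : Fin 12, ∀ b ∈ nb12 a, ∀ c ∈ nb12 b, a ≠ c → ∀ d ∈ nb12 c, b ≠ d →
        ¬ a ∈ nb12 d := by decide
    exact key _ _ h1 _ h2 e1 _ h3 e2 h4
  · rintro ⟨f⟩
    have h1 : G12.Adj (f 0) (f 1) := f.toHom.map_rel (by decide : (cycleGraph 5).Adj 0 1)
    have h2 : G12.Adj (f 1) (f 2) := f.toHom.map_rel (by decide : (cycleGraph 5).Adj 1 2)
    have h3 : G12.Adj (f 2) (f 3) := f.toHom.map_rel (by decide : (cycleGraph 5).Adj 2 3)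
    have h4 : G12.Adj (f 3) (f 4) := f.toHom.map_rel (by decide : (cycleGraph 5).Adj 3 4)
    have h5 : G12.Adj (f 4) (f 0) := f.toHom.map_rel (by decide : (cycleGraph 5).Adj 4 0)
    have e1 : f 0 ≠ f 2 := fun h => absurd (f.injective h) (by decide)
    have e2 : f 1 ≠ f 3 := fun h => absurd (f.injective h) (by decide)
    have e3 : f 2 ≠ f 4 := fun h => absurd (f.injective h) (by decide)
    have key : ∀ a : Fin 12, ∀ b ∈ nb12 a, ∀ c ∈ nb12 b, a ≠ c → ∀ d ∈ nb12 c, b ≠ d →
        ∀ e ∈ nb12 d, c ≠ e → ¬ a ∈ nb12 e := by decide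
    exact key _ _ h1 _ h2 e1 _ h3 e2 _ h4 e3 h5

theorem extremal8 : Extremal 4 G8 := by
  refine ⟨D23_ofTable nb8 _ _ (by decide) (by decide), girth8, ?_⟩
  intro W _ H h1 h2
  rw [Fintype.card_fin]
  exact lower4 H h1 h2

theorem extremal12 : Extremal 6 G12 := by
  refine ⟨D23_ofTable nb12 _ _ (by decide) (by decide), girth12, ?_⟩
  intro W _ H h1 h2
  rw [Fintype.card_fin]
  exact lower6 H h1 h2

/-- For `g = 4` and for `g = 6` there is a graph extremal for `g` with two adjacent vertices of
degree two. -/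
theorem result : ∀ g : ℕ, g = 4 ∨ g = 6 →
    ∃ (V : Type) (_ : Fintype V) (G : SimpleGraph V), Extremal g G ∧
      ∃ u v, G.Adj u v ∧ deg G u = 2 ∧ deg G v = 2 := by
  rintro g (rfl | rfl)
  · refine ⟨Fin 8, inferInstance, G8, extremal8, 4, 5, ?_, ?_, ?_⟩
    · change (5 : Fin 8) ∈ nb8 4
      decide
    · exact deg_ofTable nb8 _ _ 4
    · exact deg_ofTable nb8 _ _ 5
  · refine ⟨Fin 12, inferInstance, G12, extremal12, 6, 7, ?_, ?_, ?_⟩
    · change (7 : Fin 12) ∈ nb12 6
      decide
    · exact deg_ofTable nb12 _ _ 6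
    · exact deg_ofTable nb12 _ _ 7

end Pool.Agent.Results.MP_6c91b3_co.AdjacentDegreeTwo
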